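import Pool.Agent.H60.RF.Stmts

/-!
# A chain of three blocks
-/

set_option autoImplicit false

open Finset Real

namespace Pool.RF

open Pool.Agent.H49.Ent Pool.Agent.H32.Dense Pool.STK Pool.KA Pool.GP Pool.KRN

theorem cht : CHTStmt := by
  intro m J j k j' S₁ S₂ F b c e hb hc he z₁ z₂ E hz1 hz2 h1 h2 h3
  have hn := F.isLaw.nonneg
  have hp := F.isLaw
  rw [V_img] at h1 h2 h3
  obtain ⟨xb, hxb⟩ : ∃ xb : F.Ω → Fin j → ℤ, xb = fun ω => fl J (mv b (F.x ω)) := ⟨_, rfl⟩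
  obtain ⟨xc, hxc⟩ : ∃ xc : F.Ω → Fin k → ℤ, xc = fun ω => fl J (mv c (F.x ω)) := ⟨_, rfl⟩
  obtain ⟨xe, hxe⟩ : ∃ xe : F.Ω → Fin j' → ℤ, xe = fun ω => fl J (mv e (F.x ω)) := ⟨_, rfl⟩
  obtain ⟨db, hdb⟩ : ∃ db : F.Ω → Fin j → ℤ, db = fun ω => fl J (mv b (F.d ω)) := ⟨_, rfl⟩
  obtain ⟨dc, hdc⟩ : ∃ dc : F.Ω → Fin k → ℤ, dc = fun ω => fl J (mv c (F.d ω)) := ⟨_, rfl⟩
  obtain ⟨de, hde⟩ : ∃ de : F.Ω → Fin j' → ℤ, de = fun ω => fl J (mv e (F.d ω)) := ⟨_, rfl⟩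
  rw [← hxb, ← hdb] at h1
  rw [← hxc, ← hdc] at h2
  rw [← hxe, ← hde] at h3
  rw [← hdb, ← hdc, ← hde]
  -- the trivial side information
  have e1 : CH F.p db (fun _ : F.Ω => ()) = H F.p db := by
    unfold CH
    rw [H_const hp.sum_one, sub_zero]
    exact H_congr hn (fun ω ω' _ _ h => Prod.ext h rfl) (fun ω ω' _ _ h => (Prod.ext_iff.mp h).1)
  have e2 : CH F.p xb (fun ω => (F.T ω, ())) = CH F.p xb F.T :=
    CH_congr hn (fun ω ω' _ _ h => (Prod.ext_iff.mp h).1) (fun ω ω' _ _ h => (Prod.ext_iff.mp h).1)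
      (fun ω ω' _ _ h => (Prod.ext_iff.mp h).1) (fun ω ω' _ _ h => Prod.ext h rfl)
  rw [e1, e2] at h1
  -- the position
  have s1 : CH F.p (fun ω => (xe ω, (xc ω, xb ω))) F.T ≤
      CH F.p (F.X J) F.T + (j + k + j') * Real.log 3 := by
    have k1 := CH_le_add hn (fun ω => (xe ω, (xc ω, xb ω))) (F.X J) F.T
    have k2 := CH_subadd hn xe (fun ω => (xc ω, xb ω)) (fun ω => (F.X J ω, F.T ω))
    have k2' := CH_subadd hn xc xb (fun ω => (F.X J ω, F.T ω))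
    have k3 := CH_img (J := J) hp hc F.x (fun ω => (F.X J ω, F.T ω))
      (fun ω ω' h => (Prod.ext_iff.mp h).1)
    have k4 := CH_img (J := J) hp hb F.x (fun ω => (F.X J ω, F.T ω))
      (fun ω ω' h => (Prod.ext_iff.mp h).1)
    have k5 := CH_img (J := J) hp he F.x (fun ω => (F.X J ω, F.T ω))
      (fun ω ω' h => (Prod.ext_iff.mp h).1)
    rw [← hxc] at k3
    rw [← hxb] at k4
    rw [← hxe] at k5
    linarith
  rw [CH_chain hn, CH_chain hn] at s1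
  -- the second block
  have s3 : CH F.p xc (fun ω => (F.T ω, z₁ ω)) ≤
      CH F.p xc (fun ω => (xb ω, F.T ω)) + j * Real.log 5 := by
    have k1 := CH_le_add hn xc xb (fun ω => (F.T ω, z₁ ω))
    have k2 := CH_pos F (M := b) (fun ω => (F.T ω, z₁ ω))
      (fun ω ω' h => ⟨hz1 ω ω' (Prod.ext_iff.mp h).2, (Prod.ext_iff.mp h).1⟩)
    rw [← hxb] at k2
    have k3 := CH_mono_cond hn (X := xc) (W' := fun ω => (xb ω, (F.T ω, z₁ ω)))
      (W := fun ω => (xb ω, F.T ω)) (fun ω ω' _ _ h => by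
        have e := Prod.ext_iff.mp h
        exact Prod.ext e.1 (Prod.ext_iff.mp e.2).1)
    linarith
  -- the third block
  have s4 : CH F.p xe (fun ω => (F.T ω, z₂ ω)) ≤
      CH F.p xe (fun ω => ((xc ω, xb ω), F.T ω)) + (j + k) * Real.log 5 := by
    have k1 := CH_le_add hn xe (fun ω => (xc ω, xb ω)) (fun ω => (F.T ω, z₂ ω))
    have k1' := CH_subadd hn xc xb (fun ω => (F.T ω, z₂ ω))
    have k2 := CH_pos F (M := b) (fun ω => (F.T ω, z₂ ω))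
      (fun ω ω' h => ⟨(hz2 ω ω' (Prod.ext_iff.mp h).2).1, (Prod.ext_iff.mp h).1⟩)
    have k2' := CH_pos F (M := c) (fun ω => (F.T ω, z₂ ω))
      (fun ω ω' h => ⟨(hz2 ω ω' (Prod.ext_iff.mp h).2).2, (Prod.ext_iff.mp h).1⟩)
    rw [← hxb] at k2
    rw [← hxc] at k2'
    have k3 := CH_mono_cond hn (X := xe) (W' := fun ω => ((xc ω, xb ω), (F.T ω, z₂ ω)))
      (W := fun ω => ((xc ω, xb ω), F.T ω)) (fun ω ω' _ _ h => by
        have e := Prod.ext_iff.mp h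
        exact Prod.ext e.1 (Prod.ext_iff.mp e.2).1)
    linarith
  linarith

end Pool.RF
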