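import Pool.Agent.H60.RF.Stmts

/-!
# The chain in a class
-/

set_option autoImplicit false

open Finset Real

namespace Pool.RF

open Pool.Agent.H49.Ent Pool.Agent.H32.Dense Pool.STK Pool.KA Pool.GP Pool.KRN

/-- Entropy of a determined vector from the rest. -/
lemma clc_inv {Ω : Type} [Fintype Ω] {T : Type} {J m j j' C : ℕ} {q : Ω → ℝ} (hq : IsLaw q)
    {b : Fin j → Fin m → ℝ} {c : Fin j' → Fin m → ℝ}
    (hdet : ∀ (x : Fin m → ℝ) (δ : ℝ), (∀ l, |mv b x l| ≤ δ) → (∀ l, |mv c x l| ≤ δ) →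
      ∀ r, |x r| ≤ C * δ) (d : Ω → Fin m → ℝ) (W : Ω → T)
    (hW : ∀ ω ω', W ω = W ω' → fl J (mv b (d ω)) = fl J (mv b (d ω'))) :
    CH q (fun ω => fl J (d ω)) W ≤ CH q (fun ω => fl J (mv c (d ω))) W + KC m C := by
  have k1 := CH_inv (J := J) hq hdet d (fun ω => (fl J (mv c (d ω)), W ω)) (by
    intro ω ω' h
    have e := Prod.ext_iff.mp h
    exact ⟨hW ω ω' e.2, e.1⟩)
  have k2 := CH_le_add hq.nonneg (fun ω => fl J (d ω)) (fun ω => fl J (mv c (d ω))) W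
  unfold KC
  linarith

theorem clc (hclb : CLBStmt) (hcht : CHTStmt) (hlsa : LSAStmt) : CLCStmt := by
  classical
  intro m J N G K C g κ F hm6 hm7 hmK hg b hG t hgood A a ha hl E η hE hI hD s B hs1 hs3 hB hBs
    n₀ hmin
  have hp := F.isLaw
  obtain ⟨F', hF'⟩ : ∃ F' : Pool.KA.Fam m J, F' = F.res A a hl := ⟨_, rfl⟩
  have hlog2 : 0 < Real.log 2 := Real.log_pos (by norm_num)
  have hlog3 : 0 < Real.log 3 := Real.log_pos (by norm_num)
  have hlog57 : Real.log 5 ≤ Real.log 7 := Real.log_le_log (by norm_num) (by norm_num)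
  have hlog37 : Real.log 3 ≤ Real.log 7 := Real.log_le_log (by norm_num) (by norm_num)
  have hlog7 : 0 < Real.log 7 := Real.log_pos (by norm_num)
  -- the first block
  obtain ⟨σ, hσ⟩ : ∃ σ : Fin s.card → Fin K, σ = fun l => s.orderEmbOfFin rfl l := ⟨_, rfl⟩
  have hσs : ∀ l, σ l ∈ s := fun l => by rw [hσ]; exact Finset.orderEmbOfFin_mem s rfl l
  have hσi : Function.Injective σ := by
    rw [hσ]
    exact (s.orderEmbOfFin rfl).injective
  -- the first two blocks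
  obtain ⟨s₂, hs₂⟩ : ∃ s₂ : Finset (Fin K), s₂ = s ∪ univ.image B := ⟨_, rfl⟩
  have hBm : ∀ l, B l ∈ s₂ := fun l => by
    rw [hs₂]
    exact Finset.mem_union_right _ (Finset.mem_image_of_mem _ (Finset.mem_univ l))
  have hss : s ⊆ s₂ := by rw [hs₂]; exact Finset.subset_union_left
  have hdisj : Disjoint s (univ.image B) := by
    rw [Finset.disjoint_right]
    intro i hi
    obtain ⟨l, -, rfl⟩ := Finset.mem_image.mp hi
    exact hBs l
  have hc₂ : s₂.card = s.card + 3 := by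
    rw [hs₂, Finset.card_union_of_disjoint hdisj, Finset.card_image_of_injective _ hB,
      Finset.card_univ, Fintype.card_fin]
  obtain ⟨σ₂, hσ₂⟩ : ∃ σ₂ : Fin s₂.card → Fin K, σ₂ = fun l => s₂.orderEmbOfFin rfl l := ⟨_, rfl⟩
  have hσ₂s : ∀ l, σ₂ l ∈ s₂ := fun l => by rw [hσ₂]; exact Finset.orderEmbOfFin_mem s₂ rfl l
  have hσ₂i : Function.Injective σ₂ := by
    rw [hσ₂]
    exact (s₂.orderEmbOfFin rfl).injective
  -- the complements
  obtain ⟨c₁, hc₁, hdet₁⟩ := exists_compl (j := s.card) (j' := m - s.card) hG hmK (by omega) σ hσi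
  obtain ⟨j', hj'⟩ : ∃ j' : ℕ, j' = m - s.card - 3 := ⟨_, rfl⟩
  obtain ⟨e, he, hdet₂⟩ := exists_compl (j := s₂.card) (j' := j') hG hmK (by omega) σ₂ hσ₂i
  obtain ⟨q, hq⟩ : ∃ q, q = cond F.p A a := ⟨_, rfl⟩
  have hlq : IsLaw q := hq ▸ hl
  obtain ⟨z₁, hz₁⟩ : ∃ z₁, z₁ = ls F (mq b) s := ⟨_, rfl⟩
  obtain ⟨z₂, hz₂⟩ : ∃ z₂, z₂ = ls F (mq b) s₂ := ⟨_, rfl⟩
  -- what the side informations determine
  have d1 : ∀ ω ω', z₁ ω = z₁ ω' →
      Lb F (fun l => mq b (σ l)) ω = Lb F (fun l => mq b (σ l)) ω' := by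
    intro ω ω' h
    rw [hz₁] at h
    exact (hlsa F (mq b) s ω ω').2.1 σ hσs h
  have d2 : ∀ ω ω', z₂ ω = z₂ ω' →
      Lb F (fun l => mq b (σ l)) ω = Lb F (fun l => mq b (σ l)) ω' := by
    intro ω ω' h
    rw [hz₂] at h
    exact (hlsa F (mq b) s₂ ω ω').2.1 σ (fun l => hss (hσs l)) h
  have d3 : ∀ ω ω', z₂ ω = z₂ ω' →
      Lb F (fun l => mq b (B l)) ω = Lb F (fun l => mq b (B l)) ω' := by
    intro ω ω' h
    rw [hz₂] at h
    exact (hlsa F (mq b) s₂ ω ω').2.1 B hBm h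
  have d4 : ∀ ω ω', z₂ ω = z₂ ω' →
      Lb F (fun l => mq b (σ₂ l)) ω = Lb F (fun l => mq b (σ₂ l)) ω' := by
    intro ω ω' h
    rw [hz₂] at h
    exact (hlsa F (mq b) s₂ ω ω').2.1 σ₂ hσ₂s h
  have d5 : ∀ ω ω', F.l ω = F.l ω' → z₁ ω = z₁ ω' := by
    intro ω ω' h
    rw [hz₁]
    exact (hlsa F (mq b) s ω ω').2.2.2 h
  have d6 : ∀ ω ω', F.l ω = F.l ω' → z₂ ω = z₂ ω' := by
    intro ω ω' h
    rw [hz₂]
    exact (hlsa F (mq b) s₂ ω ω').2.2.2 h
  -- the chain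
  have hch := hcht (F.res A a hl) (fun l => mq b (σ l)) (mq fun l => b (B l)) e
    (fun l => mq_le b (σ l)) (fun l => mq_le b (B l)) he z₁ z₂ E d1
    (fun ω ω' h => ⟨d2 ω ω' h, d3 ω ω' h⟩)
    (hI s.card hs3 _ _ _ _ (fun _ _ _ => rfl))
    (hI 3 le_rfl _ _ _ _ (fun ω ω' h => d5 ω ω' h))
    (hI j' (by omega) _ _ _ _ (fun ω ω' h => d6 ω ω' h))
  have e1 : H (F.res A a hl).p (fun ω => fl J (mv (fun l => mq b (σ l)) ((F.res A a hl).d ω))) =
      H q (fun ω => fl J (mv (fun l => mq b (σ l)) (F.d ω))) := by rw [hq]; rfl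
  have e2 : CH (F.res A a hl).p (fun ω => fl J (mv (mq fun l => b (B l)) ((F.res A a hl).d ω)))
      z₁ = CH q (fun ω => fl J (mv (mq fun l => b (B l)) (F.d ω))) z₁ := by rw [hq]; rfl
  have e3 : CH (F.res A a hl).p (fun ω => fl J (mv e ((F.res A a hl).d ω))) z₂ =
      CH q (fun ω => fl J (mv e (F.d ω))) z₂ := by rw [hq]; rfl
  have e4 : CH (F.res A a hl).p ((F.res A a hl).X J) (F.res A a hl).T =
      CH q (F.X J) F.T := by rw [hq]; rfl
  rw [e1, e2, e3, e4] at hch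
  -- the first block
  have s1 : H q (F.D J) ≤ H q (fun ω => fl J (mv (fun l => mq b (σ l)) (F.d ω))) +
      ((m - s.card : ℕ) : ℝ) * (J * Real.log 2 + Real.log 3) + KC m C := by
    have k1 := clc_inv (J := J) hlq hdet₁ F.d
      (fun ω => fl J (mv (fun l => mq b (σ l)) (F.d ω))) (fun ω ω' h => h)
    have k2 := H_box (J := J) hlq (x := fun ω => mv c₁ (F.d ω))
      (fun ω l => abs_mv_le hc₁ zero_le_one (F.dir ω) l)
    have k3 := CH_mono_cond hlq.nonneg (X := fun ω => fl J (mv c₁ (F.d ω)))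
      (W' := fun ω => fl J (mv (fun l => mq b (σ l)) (F.d ω))) (W := fun _ => ())
      (fun _ _ _ _ _ => rfl)
    have k4 : CH q (fun ω => fl J (mv c₁ (F.d ω))) (fun _ => ()) =
        H q (fun ω => fl J (mv c₁ (F.d ω))) := by
      unfold CH
      rw [H_const hlq.sum_one, sub_zero]
      exact H_congr hlq.nonneg (fun ω ω' _ _ h => Prod.ext h rfl)
        (fun ω ω' _ _ h => (Prod.ext_iff.mp h).1)
    have k5 : H q (F.D J) ≤ H q (fun ω => fl J (mv (fun l => mq b (σ l)) (F.d ω))) +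
        CH q (fun ω => fl J (F.d ω)) (fun ω => fl J (mv (fun l => mq b (σ l)) (F.d ω))) := by
      unfold CH
      have := H_mono hlq.nonneg (X := fun ω => (fl J (F.d ω),
        fl J (mv (fun l => mq b (σ l)) (F.d ω)))) (Y := F.D J)
        (fun ω ω' _ _ h => (Prod.ext_iff.mp h).1)
      linarith
    linarith
  -- the second block
  have s2 : CH q (fun ω => prj (2 ^ (J + 1)) (fun l => b (B l)) (fl J (F.d ω))) z₁ ≤
      CH q (fun ω => fl J (mv (mq fun l => b (B l)) (F.d ω))) z₁ + 3 * Real.log 7 := by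
    have k1 := CH_le_add hlq.nonneg
      (fun ω => prj (2 ^ (J + 1)) (fun l => b (B l)) (fl J (F.d ω)))
      (fun ω => fl J (mv (mq fun l => b (B l)) (F.d ω))) z₁
    have k2 := CH_prj hlq (by omega : 0 < m) (fun l => b (B l)) F.d
      (fun ω => (fl J (mv (mq fun l => b (B l)) (F.d ω)), z₁ ω))
      (fun ω ω' h => (Prod.ext_iff.mp h).1)
    push_cast at k2
    linarith
  have s3 := hclb hp hg A a ha (ls F (mq b) s) F.d (fun l => b (B l)) n₀ t hmin
    (hgood s B hB hBs)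
  rw [← hz₁, ← hq] at s3
  -- the third block
  have s4 := clc_inv (J := J) hlq hdet₂ F.d z₂ (fun ω ω' h => (Prod.ext_iff.mp (d4 ω ω' h)).2)
  have s4' : CH q (fun ω => fl J (F.d ω)) z₂ = CH q (F.D J) z₂ := rfl
  have s3' : CH q (fun ω => fl (g n₀) (F.d ω)) z₁ = CH q (F.D (g n₀)) z₁ := rfl
  rw [s4'] at s4
  rw [s3'] at s3
  rw [← hs₂, ← hq, ← hz₁, ← hz₂]
  rw [← hq] at hD
  -- constants
  have hJg : ((3 * (J - g n₀) : ℕ) : ℝ) * Real.log 2 = 3 * (((J : ℝ) - g n₀) * Real.log 2) := by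
    push_cast
    rw [Nat.cast_sub (hg.le n₀)]
    ring
  rw [hJg] at s3
  have hms : ((m - s.card : ℕ) : ℝ) = (m : ℝ) - s.card := Nat.cast_sub (by omega)
  have hj'r : (j' : ℝ) = (m : ℝ) - s.card - 3 := by
    have : (j' : ℝ) + s.card + 3 = m := by
      have : j' + s.card + 3 = m := by omega
      exact_mod_cast this
    linarith
  rw [hms] at s1
  rw [hj'r] at hch
  have hm6r : (6 : ℝ) ≤ m := by exact_mod_cast hm6
  have hs3r : (s.card : ℝ) ≤ 3 := by exact_mod_cast hs3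
  have hs0r : (0 : ℝ) ≤ s.card := Nat.cast_nonneg _
  unfold Cr
  have c1 : ((s.card : ℝ) + (3 : ℕ) + ((m : ℝ) - s.card - 3)) * Real.log 3 = m * Real.log 3 := by
    push_cast
    ring
  have c2 : (2 * (s.card : ℝ) + (3 : ℕ)) * Real.log 5 ≤ 9 * Real.log 7 := by
    push_cast
    have : (0 : ℝ) < Real.log 5 := Real.log_pos (by norm_num)
    nlinarith
  have c3 : ((m : ℝ) - s.card) * (J * Real.log 2 + Real.log 3) =
      m * (J * Real.log 2) - s.card * (J * Real.log 2) + (m - s.card) * Real.log 3 := by ring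
  have c4 : ((m : ℝ) - s.card) * Real.log 3 ≤ m * Real.log 7 := by nlinarith
  have c5 : (m : ℝ) * Real.log 3 ≤ m * Real.log 7 :=
    mul_le_mul_of_nonneg_left hlog37 (by positivity)
  have c6 : 12 * Real.log 7 ≤ 2 * (m * Real.log 7) := by nlinarith
  rw [c1] at hch
  rw [c3] at s1
  linarith

end Pool.RF
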